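import Pool.Agent.W477.GM.Stms

/-!
# Project GM (MP_3ade05_lc): the assembly
-/

set_option maxHeartbeats 1000000

namespace Pool.Agent.W477.GM.W32Main

open FirstOrder FirstOrder.Language
open Pool.Agent.W477.GM
open Pool.Agent.Helper672.Plain (LSet Mem Sym)
open Pool.Agent.H635Amen (ZF)

/-- the interpretation of the symbol -/
def relI {M : Type 1} (mem : M → M → Prop) : ∀ {n : ℕ}, Sym n → (Fin n → M) → Prop
  | _, Sym.mem, x => mem (x 0) (x 1)

/-- the structure -/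
@[reducible] def strI {M : Type 1} (mem : M → M → Prop) : LSet.Structure M where
  funMap f := Empty.elim f
  RelMap r x := relI mem r x

theorem mem_strI {M : Type 1} (mem : M → M → Prop) (x y : M) :
    @Mem M (strI mem) x y ↔ mem x y := Iff.rfl

theorem mem_eq {M : Type 1} (mem : M → M → Prop) : @Mem M (strI mem) = mem := rfl

theorem mem_sub {M : Type 1} (mem : M → M → Prop) (V : Set M) :
    @Mem V (@subStr M (strI mem) V) = fun a b : V => mem a.1 b.1 := rfl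

theorem upd {M : Type 1} {N : Type 1} (cl : N → M) (v : ℕ → N) (i : ℕ) (x : N) :
    Function.update (fun j => cl (v j)) i (cl x) = fun j => cl (Function.update v i x j) := by
  funext j
  by_cases hj : j = i
  · subst hj; simp
  · simp [hj]

theorem main_holds (h : P_EQ) (h2 : P_FC) (h3 : P_HS) (hl : P_LIFT) (hlh : P_LIFTHS)
    (hco : P_COD) (hzf : P_ZFF) (hhi : P_HIGH) (ht : P_TRUTH) (hcv : P_CONV) (hz : P_ZFM)
    (hr : P_REL) (hsf : P_SATF) (hpo : P_PO) (hge : P_GEN) (hgo : P_GO) (hc : P_CAX)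
    (hk : P_KAP) (hs : P_SYSC) : P_MAIN := by
  obtain ⟨G, D0, go⟩ := hgo
  have axQ : SysAx SQ := hs hk Str slen hc.2
  have axP : SysAx SP := hs hk Unit (fun _ => ⊤) hc.1
  have pwQ : Pow SQ := hhi Str slen hc.2
  have pwP : Pow SP := hhi Unit (fun _ => ⊤) hc.1
  obtain ⟨M, mem, cl, hsurj, heq, hmem, htruth⟩ := ht QQ G D0 go.fil ⟨_, go.b⟩
  obtain ⟨p0, hp0⟩ := go.fil.ne
  -- the truth lemma for the extension
  have hA : (fun m => ∃ x, D0 x ∧ cl x = m) = fun _ : M => True := by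
    funext m
    exact eq_true (hsurj m)
  have T1 : ∀ φ v, (∀ i, D0 (v i)) → (SatR mem (fun _ => True) φ (fun i => cl (v i)) ↔
      ∃ p, p ∈ G ∧ Fc (HS SQ) φ v p) := by
    intro φ v hv
    have := htruth (HS SQ) D0 (fun _ hx => hx) go.gen φ v hv
    rw [hA] at this
    exact this
  -- the ground model
  set V : Set M := {m | ∃ x, (D0 x ∧ VN x) ∧ cl x = m} with hV
  have T2 : ∀ φ v, (∀ i, D0 (v i) ∧ VN (v i)) → (SatR mem (fun m => m ∈ V) φ (fun i => cl (v i)) ↔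
      ∃ p, p ∈ G ∧ Fc VN φ v p) := fun φ v hv =>
    htruth VN (fun x => D0 x ∧ VN x) (fun _ hx => hx.1) go.genV φ v hv
  have hsP := (hco.1 PP).hs SP axP
  have vb : VN (lift bN) := ⟨bN, hsP.1, rfl⟩
  have vr : VN (lift rN) := ⟨rN, hsP.2, rfl⟩
  -- the assignment
  set a0 : ℕ → Nm QQ := fun i => if i = 0 then lift bN else if i = 1 then lift rN else gN with ha0
  have ha0D : ∀ i, D0 (a0 i) := by
    intro i
    simp only [ha0]
    split_ifs
    · exact go.b
    · exact go.r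
    · exact go.g
  have bV : cl (lift bN) ∈ V := ⟨_, ⟨go.b, vb⟩, rfl⟩
  have rV : cl (lift rN) ∈ V := ⟨_, ⟨go.r, vr⟩, rfl⟩
  letI str : LSet.Structure M := strI mem
  refine ⟨M, str, V, cl (lift bN), cl (lift rN), cl gN, ?_, ?_, ?_, bV, rV, ?_, ?_, ?_, ?_⟩
  · -- ZF for the extension
    refine hz M ⟨cl gN⟩ fun σ hσ v => ?_
    choose v' hv' using fun i => hsurj (v i)
    have e : v = fun i => cl (v' i) := funext fun i => (hv' i).2.symm
    rw [e]
    exact (T1 σ v' fun i => (hv' i).1).2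
      ⟨p0, hp0, hzf QQ SQ axQ pwQ σ hσ v' (fun i => go.hs _ (hv' i).1) p0⟩
  · -- ZF for the ground model
    refine hz V ⟨⟨_, bV⟩⟩ fun σ hσ v => ?_
    have hrel := hr M mem (fun m => m ∈ V) σ v
    refine hrel.1 ?_
    have hvV : ∀ i, ∃ x, (D0 x ∧ VN x) ∧ cl x = (v i).1 := fun i => (v i).2
    choose w hw using hvV
    have hwu : ∀ i, ∃ y, HS SP y ∧ w i = lift y := fun i => (hw i).1.2
    choose u hu using hwu
    have e : (fun i => (v i).1) = fun i => cl (w i) := funext fun i => (hw i).2.symm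
    rw [e]
    refine (T2 σ w fun i => (hw i).1).2 ⟨p0, hp0, ?_⟩
    have e2 : w = fun i => lift (u i) := funext fun i => (hu i).2
    rw [e2]
    exact (hl.fc σ u p0).2 (hzf PP SP axP pwP σ hσ u (fun i => (hu i).1) (pj p0))
  · -- transitivity
    rintro x ⟨x', ⟨hx0, hxV⟩, rfl⟩ y hy
    obtain ⟨y', hy0, rfl⟩ := hsurj y
    have hyx : mem (cl y') (cl x') := hy
    obtain ⟨z, hz0, hzV, p, hp, hf⟩ := go.tra y' x' hy0 hx0 hxV ((hmem y' x' hy0 hx0).1 hyx)
    exact ⟨z, ⟨hz0, hzV⟩, ((heq y' z hy0 hz0).2 ⟨p, hp, hf⟩).symm⟩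
  · -- the notion of forcing
    have h1 := (hsf M (fun i => cl (a0 i))).2.1
    exact h1 ((T1 _ a0 ha0D).2 ⟨p0, hp0, (hpo a0 (fun i => go.hs _ (ha0D i)) rfl rfl rfl p0).1⟩)
  · -- the generic filter
    have h1 := (hsf M (fun i => cl (a0 i))).2.2 V ⟨_, bV⟩
    refine h1 fun d hd => ?_
    obtain ⟨d', ⟨hd0, hdV⟩, rfl⟩ := hd
    have hD : ∀ i, D0 (Function.update a0 3 d' i) := by
      intro i
      by_cases hi : i = 3
      · subst hi; simpa using hd0
      · simpa [hi] using ha0D i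
    have hHS : ∀ i, HS SQ (Function.update a0 3 d' i) := fun i => go.hs _ (hD i)
    rw [upd cl a0 3 d']
    refine ⟨(T1 _ _ hD).2 ⟨p0, hp0, (hpo _ hHS rfl rfl rfl p0).2⟩,
      (T1 _ _ hD).2 ⟨p0, hp0, hge _ hHS rfl rfl rfl ?_ p0⟩⟩
    simpa using hdV
  · -- names
    intro x
    obtain ⟨x', hx0, rfl⟩ := hsurj x
    obtain ⟨τ, hτ, hτ0, hval⟩ := go.val x' hx0
    refine ⟨cl (lift τ), ⟨_, ⟨hτ0, τ, hτ, rfl⟩, rfl⟩, ?_⟩
    set a1 : ℕ → Nm QQ := fun i => if i = 0 then gN else if i = 1 then lift τ else x' with ha1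
    have ha1D : ∀ i, D0 (a1 i) := by
      intro i
      simp only [ha1]
      split_ifs
      · exact go.g
      · exact hτ0
      · exact hx0
    exact (hsf M (fun i => cl (a1 i))).1 ((T1 _ a1 ha1D).2
      ⟨p0, hp0, hval a1 (fun i => go.hs _ (ha1D i)) rfl rfl rfl p0⟩)
  · -- not definable
    intro hdef
    obtain ⟨φ, v, hv, hφ⟩ := hcv M V V ⟨_, bV⟩ hdef
    choose v' hv' using hv
    have e : v = fun i => cl (v' i) := funext fun i => (hv' i).2.symm
    obtain ⟨x, hx0, p, hp, hor⟩ := go.nd φ v' fun i => (hv' i).1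
    have hD : ∀ i, D0 (Function.update v' 0 x i) := by
      intro i
      by_cases hi : i = 0
      · subst hi; simpa using hx0
      · simpa [hi] using (hv' i).1.1
    have key : cl x ∈ V ↔ ∃ p, p ∈ G ∧ Fc (HS SQ) φ (Function.update v' 0 x) p := by
      rw [hφ (cl x), e, upd cl v' 0 x]
      exact T1 φ _ hD
    rcases hor with ⟨hxV, hno⟩ | ⟨hyes, hno⟩
    · obtain ⟨p', hp', hf⟩ := key.1 ⟨x, ⟨hx0, hxV⟩, rfl⟩
      obtain ⟨r, hr', hrp, hrp'⟩ := go.fil.dir p p' hp hp'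
      exact hno r hrp ((h2 QQ (HS SQ)).mono _ _ _ _ hrp' hf)
    · obtain ⟨x', ⟨hx'0, y, hy, rfl⟩, hcl⟩ := key.2 ⟨p, hp, hyes⟩
      obtain ⟨p', hp', hf⟩ := (heq _ _ hx0 hx'0).1 hcl.symm
      obtain ⟨r, hr', hrp, hrp'⟩ := go.fil.dir p p' hp hp'
      exact hno r hrp y hy ((h QQ).mono _ _ _ _ hrp' hf)

end Pool.Agent.W477.GM.W32Main
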